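import Mathlib
import Pool.Agent.N389.EV.Reg
import Pool.Agent.Results.MP_257582_lc.RegularDegrees

set_option autoImplicit false

/-!
# Restrictions to a matching and small-memory streaming (MP_257582_lc)

Let `n` be arbitrary. A non-trivial isomorphism-invariant monotone property `P` of graphs on `n`
vertices is evasive as soon as two of its restrictions to a matching `M` with
`4 |M| + 29 ≤ n` are comparable in a non-obvious way (for example equal), and in particular as soon
as it is decided by a one-pass streaming algorithm with `V` states, `V (m + 1) < 2 ^ m`,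
`4 m + 29 ≤ n`.

Proof. By a permutation argument a comparison gives a coincidence of two restrictions. The
coincidence is transported to all matchings by the symmetric group, and then any two edges can be
exchanged in a graph which contains a certain number `m₁` of disjoint edges and misses `m₂` disjoint
edges, `m₁ + m₂ = |M| + 7`, all of them disjoint from each other and sufficiently many of them from
the two edges. So on the graphs of this kind `P` depends only on the number of edges. All regular
graphs, except the empty and the complete one, are of this kind, and the theorem `RegularDegrees`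
of the starting files applies.
-/

namespace Pool.Agent.Results.MP_257582_lc.MatchingRestrictions

open Finset Pool.Agent.H98R2.Ev Pool.Agent.N389.EV Pool.Agent.N389.EVR

/-- `P` is evasive, in the format of the frozen statement: every adaptive query strategy using
`n.choose 2 - 1` queries leaves two graphs that agree on all queried pairs, one with and one
without the property. -/
def Evasive (n : ℕ) (P : SimpleGraph (Fin n) → Prop) : Prop :=
  ∀ s : Finset (Sym2 (Fin n)) → SimpleGraph (Fin n) → Sym2 (Fin n),
    (∀ (Q : Finset (Sym2 (Fin n))) (G H : SimpleGraph (Fin n)),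
        (∀ e ∈ Q, (e ∈ G.edgeSet ↔ e ∈ H.edgeSet)) → s Q G = s Q H) →
    ∃ G H : SimpleGraph (Fin n),
      (∀ e ∈ (fun Q : Finset (Sym2 (Fin n)) => insert (s Q G) Q)^[n.choose 2 - 1]
            (∅ : Finset (Sym2 (Fin n))),
          (e ∈ G.edgeSet ↔ e ∈ H.edgeSet)) ∧ P G ∧ ¬ P H

/-- The state reached from state `q` at time `t` after reading a list of pairs. -/
def run {n V : ℕ} (step : ℕ → Fin V → Sym2 (Fin n) → Fin V) :
    ℕ → Fin V → List (Sym2 (Fin n)) → Fin V
  | _, q, [] => q
  | t, q, e :: l => run step (t + 1) (step t q e) l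

/-- `P` is decided by a deterministic one-pass streaming algorithm with `V` states: the edges of
the graph arrive one by one, each once, in an arbitrary order; the state is updated from the old
state, the new edge and the number of edges read before; the answer is read off from the last
state and the number of edges. -/
def Streams (n V : ℕ) (P : SimpleGraph (Fin n) → Prop) : Prop :=
  ∃ (q₀ : Fin V) (step : ℕ → Fin V → Sym2 (Fin n) → Fin V) (acc : ℕ → Fin V → Prop),
    ∀ l : List (Sym2 (Fin n)), l.Nodup → (∀ e ∈ l, ¬ e.IsDiag) →
      (P (SimpleGraph.fromEdgeSet {e | e ∈ l}) ↔ acc l.length (run step 0 q₀ l))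

theorem run_append {n V : ℕ} (step : ℕ → Fin V → Sym2 (Fin n) → Fin V)
    (l l' : List (Sym2 (Fin n))) (t : ℕ) (q : Fin V) :
    run step t q (l ++ l') = run step (t + l.length) (run step t q l) l' := by
  induction l generalizing t q with
  | nil => simp [run]
  | cons e l ih =>
    rw [List.cons_append, run, ih, run, List.length_cons]
    congr 1
    omega

/-- the coincidence form, for sets of non-diagonal pairs -/
theorem coinc {n : ℕ} (P : SimpleGraph (Fin n) → Prop)
    (hmono : ∀ G H : SimpleGraph (Fin n), G ≤ H → P G → P H)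
    (hiso : ∀ (σ : Fin n ≃ Fin n) (G : SimpleGraph (Fin n)), P G → P (G.map σ.toEmbedding))
    (hex : ∃ G : SimpleGraph (Fin n), P G) (hne : ∃ G : SimpleGraph (Fin n), ¬ P G)
    (M A A' : Finset (EV (Fin n))) (hM : IsMat M) (hA : A ⊆ M) (hA' : A' ⊆ M) (hAA : A ≠ A')
    (hn : 4 * M.card + 29 ≤ n)
    (hrel : ∀ y : Finset (EV (Fin n)), Disjoint y M → (P (toG (A ∪ y)) ↔ P (toG (A' ∪ y)))) :
    Evasive n P := by
  obtain ⟨m₁, m₂, h1, h2, h3, hsym⟩ := coinc_sym (fun S => P (toG S)) (inv_of_iso P hiso) M A A'
    hM hA hA' hAA hrel
  refine RegularDegrees.result n P hmono hiso hex hne ?_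
  intro d G H _ _ hG hH
  have gG : ∀ v, dg (edg G) v = d := fun v => (dg_edg G v).trans (hG v)
  have gH : ∀ v, dg (edg H) v = d := fun v => (dg_edg H v).trans (hH v)
  have hcard : (edg G).card = (edg H).card := by
    have e1 := sum_dg (edg G)
    have e2 := sum_dg (edg H)
    simp only [gG] at e1
    simp only [gH] at e2
    omega
  rcases Nat.eq_zero_or_pos d with h0 | h0
  · -- both graphs are empty
    have key : ∀ K : SimpleGraph (Fin n), (∀ v, dg (edg K) v = d) → edg K = ∅ := by
      intro K hK
      have e1 := sum_dg (edg K)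
      simp only [hK, h0, sum_const_zero] at e1
      rw [← card_eq_zero]
      omega
    have : G = H := by
      rw [← toG_edg G, ← toG_edg H, key G gG, key H gH]
    rw [this]
  · rcases lt_or_ge d (n - 1) with h4 | h4
    · have := hsym (edg G) (edg H) (reg_good' _ d h0 h4 gG m₁ m₂ h1 h2 (by omega))
        (reg_good' _ d h0 h4 gH m₁ m₂ h1 h2 (by omega)) hcard
      simpa only [toG_edg] using this
    · -- both graphs are complete
      have key : ∀ K : SimpleGraph (Fin n), (∀ v, dg (edg K) v = d) → (edg K)ᶜ = ∅ := by
        intro K hK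
        have e1 := sum_dg (edg K)ᶜ
        have e2 : ∀ v, dg (edg K)ᶜ v = 0 := by
          intro v
          have := dg_compl (edg K) v
          rw [hK] at this
          omega
        simp only [e2, sum_const_zero] at e1
        rw [← card_eq_zero]
        omega
      have : G = H := by
        have e1 : edg G = edg H := by
          rw [← compl_compl (edg G), ← compl_compl (edg H), key G gG, key H gH]
        rw [← toG_edg G, ← toG_edg H, e1]
      rw [this]

/-- **Main theorem.** For every `n` and every non-trivial, isomorphism-invariant, monotone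
property `P` of graphs on `n` vertices:

* if `M` is a set of pairwise disjoint pairs of vertices with `4 |M| + 29 ≤ n`, if `A` and `A'` are
  two different subsets of `M` with `|A'| ≤ |A|`, and if there is no set `y` of pairs outside `M`
  such that `A ∪ y` has the property and `A' ∪ y` has not, then `P` is evasive;
* if `P` is decided by a one-pass streaming algorithm with `V` states, where
  `V (m + 1) < 2 ^ m` for some `m` with `4 m + 29 ≤ n`, then `P` is evasive. -/
theorem result : ∀ n : ℕ, ∀ P : SimpleGraph (Fin n) → Prop,
      (∀ G H : SimpleGraph (Fin n), G ≤ H → P G → P H) →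
      (∀ (σ : Fin n ≃ Fin n) (G : SimpleGraph (Fin n)), P G → P (G.map σ.toEmbedding)) →
      (∃ G : SimpleGraph (Fin n), P G) →
      (∃ G : SimpleGraph (Fin n), ¬ P G) →
      (∀ M A A' : Finset (Sym2 (Fin n)), (∀ e ∈ M, ¬ e.IsDiag) →
        (∀ e ∈ M, ∀ e' ∈ M, e ≠ e' → ∀ v, v ∈ e → v ∉ e') → 4 * M.card + 29 ≤ n →
        A ⊆ M → A' ⊆ M → A ≠ A' → A'.card ≤ A.card →
        (∀ y : Finset (Sym2 (Fin n)), Disjoint y M →
          P (SimpleGraph.fromEdgeSet ((A ∪ y : Finset (Sym2 (Fin n))) : Set (Sym2 (Fin n)))) →
          P (SimpleGraph.fromEdgeSet ((A' ∪ y : Finset (Sym2 (Fin n))) : Set (Sym2 (Fin n))))) →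
        Evasive n P) ∧
      (∀ V m : ℕ, 4 * m + 29 ≤ n → V * (m + 1) < 2 ^ m → Streams n V P → Evasive n P) := by
  intro n P hmono hiso hex hne
  classical
  have part1 : ∀ M A A' : Finset (Sym2 (Fin n)), (∀ e ∈ M, ¬ e.IsDiag) →
        (∀ e ∈ M, ∀ e' ∈ M, e ≠ e' → ∀ v, v ∈ e → v ∉ e') → 4 * M.card + 29 ≤ n →
        A ⊆ M → A' ⊆ M → A ≠ A' → A'.card ≤ A.card →
        (∀ y : Finset (Sym2 (Fin n)), Disjoint y M →
          P (SimpleGraph.fromEdgeSet ((A ∪ y : Finset (Sym2 (Fin n))) : Set (Sym2 (Fin n)))) →
          P (SimpleGraph.fromEdgeSet ((A' ∪ y : Finset (Sym2 (Fin n))) : Set (Sym2 (Fin n))))) →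
        Evasive n P := by
    intro M A A' hMd hMm hn hA hA' hAA hcard hrel
    have cM := lift_card M hMd
    have cA := lift_card A (fun e he => hMd e (hA he))
    have cA' := lift_card A' (fun e he => hMd e (hA' he))
    have hM : IsMat (lift M) := by
      intro e he e' he' hee v hv hv'
      exact hMm e.1 ((mem_lift M e).1 he) e'.1 ((mem_lift M e').1 he')
        (fun h => hee (Subtype.ext h)) v hv hv'
    have hne' : lift A ≠ lift A' := by
      intro h
      apply hAA
      ext x
      constructor
      · intro hx
        have h1 : (⟨x, hMd x (hA hx)⟩ : EV (Fin n)) ∈ lift A := (mem_lift A _).2 hx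
        rw [h] at h1
        exact (mem_lift A' _).1 h1
      · intro hx
        have h1 : (⟨x, hMd x (hA' hx)⟩ : EV (Fin n)) ∈ lift A' := (mem_lift A' _).2 hx
        rw [← h] at h1
        exact (mem_lift A _).1 h1
    have hf := inv_of_iso P hiso
    have hfm : ∀ S T : Finset (EV (Fin n)), S ⊆ T → P (toG S) → P (toG T) :=
      fun S T h => hmono _ _ (toG_mono15 h)
    obtain ⟨B, B', b1, b2, b3, -, -, -, -, b8⟩ := coinc_of_dom (fun S => P (toG S)) hf hfm
      (lift M) (lift A) (lift A') hM (lift_mono hA) (lift_mono hA') hne' (by omega) (by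
        intro y hy h
        set y₂ : Finset (Sym2 (Fin n)) := y.image Subtype.val with hy₂
        have e1 : lift y₂ = y := by
          ext e
          rw [mem_lift, hy₂, mem_image]
          constructor
          · rintro ⟨e', he', heq⟩
            rwa [← Subtype.ext heq]
          · intro he
            exact ⟨e, he, rfl⟩
        have e2 : Disjoint y₂ M := by
          rw [disjoint_left]
          intro x hx hxM
          obtain ⟨e, he, rfl⟩ := mem_image.1 hx
          exact disjoint_left.1 hy he ((mem_lift M e).2 hxM)
        have h3 := hrel y₂ e2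
        rw [← toG_lift, ← toG_lift, lift_union, lift_union, e1] at h3
        exact h3 h)
    exact coinc P hmono hiso hex hne (lift M) B B' hM b1 b2 b3 (by omega) b8
  refine ⟨part1, ?_⟩
  rintro V m hm hV ⟨q₀, step, acc, hstr⟩
  -- a matching with `m` edges
  obtain ⟨M', _, hM', hMc, _⟩ := exists_mat (n := n) (by omega) univ m ∅ (by
    have h1 := sum_dg (univ : Finset (EV (Fin n)))
    simp only [dg_univ, sum_const, smul_eq_mul, card_univ, Fintype.card_fin] at h1
    rw [card_empty, zero_add, card_univ]
    have h2 : 4 * m * n ≤ n * (n - 1) := by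
      rw [mul_comm n (n - 1)]
      exact Nat.mul_le_mul_right n (by omega)
    have h3 : 4 * m * n = 2 * (2 * m * n) := by ring
    omega)
  set M : Finset (Sym2 (Fin n)) := M'.image Subtype.val with hM
  have hMcard : M.card = m := by
    rw [hM, card_image_of_injective _ Subtype.val_injective, hMc]
  have hMd : ∀ e ∈ M, ¬ e.IsDiag := by
    intro x hx
    obtain ⟨e, _, rfl⟩ := mem_image.1 hx
    exact e.2
  have hMm : ∀ e ∈ M, ∀ e' ∈ M, e ≠ e' → ∀ v, v ∈ e → v ∉ e' := by
    intro x hx x' hx' hne v hv hv'
    obtain ⟨e, he, rfl⟩ := mem_image.1 hx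
    obtain ⟨e', he', rfl⟩ := mem_image.1 hx'
    exact hM' e he e' he' (fun h => hne (congrArg _ h)) v hv hv'
  -- pigeonhole
  obtain ⟨A, hA, A', hA', hAA, hst⟩ := exists_ne_map_eq_of_card_lt_of_maps_to
    (s := M.powerset) (t := (univ : Finset (Fin V)) ×ˢ range (m + 1))
    (f := fun A => (run step 0 q₀ A.toList, A.card)) (by
      rw [card_product, card_univ, Fintype.card_fin, card_range, card_powerset, hMcard]
      exact hV) (by
      intro A hA
      have hA' : A ⊆ M := by simpa using hA
      simp only [coe_product, coe_univ, coe_range, Set.mem_prod, Set.mem_univ, true_and,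
        Set.mem_Iio]
      have := card_le_card hA'
      omega)
  rw [mem_powerset] at hA hA'
  have hst1 : run step 0 q₀ A.toList = run step 0 q₀ A'.toList := congrArg Prod.fst hst
  have hst2 : A.card = A'.card := congrArg Prod.snd hst
  refine part1 M A A' hMd hMm (by rw [hMcard]; exact hm) hA hA' hAA hst2.symm.le ?_
  intro y hy
  set y' := y.filter (fun e => ¬ e.IsDiag) with hy'
  have key : ∀ B : Finset (Sym2 (Fin n)), B ⊆ M →
      (P (SimpleGraph.fromEdgeSet ((B ∪ y : Finset (Sym2 (Fin n))) : Set (Sym2 (Fin n)))) ↔
        acc (B.card + y'.card) (run step B.card (run step 0 q₀ B.toList) y'.toList)) := by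
    intro B hB
    have hnd : (B.toList ++ y'.toList).Nodup := by
      rw [List.nodup_append]
      refine ⟨B.nodup_toList, y'.nodup_toList, ?_⟩
      intro a ha b hb hab
      rw [mem_toList] at ha hb
      subst hab
      exact disjoint_left.1 hy (mem_filter.1 hb).1 (hB ha)
    have hdi : ∀ e ∈ B.toList ++ y'.toList, ¬ e.IsDiag := by
      intro e he
      rw [List.mem_append, mem_toList, mem_toList] at he
      rcases he with h | h
      · exact hMd e (hB h)
      · exact (mem_filter.1 h).2
    have h1 := hstr (B.toList ++ y'.toList) hnd hdi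
    rw [run_append, List.length_append, length_toList, length_toList, zero_add] at h1
    rw [← h1]
    have h2 : SimpleGraph.fromEdgeSet ((B ∪ y : Finset (Sym2 (Fin n))) : Set (Sym2 (Fin n))) =
        SimpleGraph.fromEdgeSet {e | e ∈ B.toList ++ y'.toList} := by
      ext a b
      rw [SimpleGraph.fromEdgeSet_adj, SimpleGraph.fromEdgeSet_adj]
      simp only [mem_coe, mem_union, Set.mem_ofPred_eq, List.mem_append, mem_toList, hy',
        mem_filter]
      constructor
      · rintro ⟨h | h, hab⟩
        · exact ⟨Or.inl h, hab⟩
        · exact ⟨Or.inr ⟨h, by simpa using hab⟩, hab⟩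
      · rintro ⟨h | h, hab⟩
        · exact ⟨Or.inl h, hab⟩
        · exact ⟨Or.inr h.1, hab⟩
    rw [h2]
  rw [key A hA, key A' hA', hst1, hst2]
  exact id

end Pool.Agent.Results.MP_257582_lc.MatchingRestrictions
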