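import Mathlib
import Pool.Agent.N593.Karp.Fin

set_option autoImplicit false

/-!
# MP_257582_lc: every monotone graph property has query complexity at least `(3/8 - o(1)) n^2`

For every `ε > 0` and all large `n`, every non-trivial monotone isomorphism invariant property of
graphs on `n` vertices and every adaptive strategy with fewer than `(3/8 - ε) n^2` queries there
are two graphs, one with and one without the property, that agree on all queried pairs.

Proof.  The reduction of Kahn, Saks and Sturtevant leaves properties that fail for graphs with an
isolated vertex and hold for graphs with a universal vertex.  Let `p` be a prime slightly below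
`n / 4`; split the vertices into a part of size `r = n - 4 p` and four blocks of size `p`.  For
the `2 ^ 15` graphs that are unions of complete bipartite graphs between parts and cliques on
parts, Smith and Lefschetz theory (for the affine group acting on the four blocks, possibly with
two blocks swapped) gives an alternating relation between the values of the property for every
sum of orbits of total size at least `6 p (p - 1)`.  Together with monotonicity, the permutations
of the blocks and the exchange of the small part with a piece of a block, these relations are
inconsistent: a certificate (103 relations, 262 lemmas with 913 propagation steps, found by a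
search program) is checked by the kernel.

Formalised with the team's library on evasiveness (`Pool.Agent.H98R2.Ev`, `Pool.Agent.H119R2.Kp`);
the new part is in `Pool.Agent.N593.Karp` (helper593).
-/

namespace Pool.Agent.Results.MP_257582_lc.ThreeEighths

/-- Every non-trivial monotone graph property has query complexity at least
`(3/8 - o(1)) n^2`. -/
theorem result : ∀ ε : ℝ, 0 < ε → ∃ N : ℕ, ∀ n : ℕ, N ≤ n →
    ∀ P : SimpleGraph (Fin n) → Prop,
      (∀ G H : SimpleGraph (Fin n), G ≤ H → P G → P H) →
      (∀ (σ : Fin n ≃ Fin n) (G : SimpleGraph (Fin n)), P G → P (G.map σ.toEmbedding)) →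
      (∃ G : SimpleGraph (Fin n), P G) →
      (∃ G : SimpleGraph (Fin n), ¬ P G) →
      ∀ s : Finset (Sym2 (Fin n)) → SimpleGraph (Fin n) → Sym2 (Fin n),
        (∀ (Q : Finset (Sym2 (Fin n))) (G H : SimpleGraph (Fin n)),
            (∀ e ∈ Q, (e ∈ G.edgeSet ↔ e ∈ H.edgeSet)) → s Q G = s Q H) →
        ∀ q : ℕ, (q : ℝ) < (3 / 8 - ε) * (n : ℝ) ^ 2 →
          ∃ G H : SimpleGraph (Fin n),
            (∀ e ∈ (fun Q : Finset (Sym2 (Fin n)) => insert (s Q G) Q)^[q]
                  (∅ : Finset (Sym2 (Fin n))),
                (e ∈ G.edgeSet ↔ e ∈ H.edgeSet)) ∧ P G ∧ ¬ P H := by
  intro ε hε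
  obtain ⟨N, hN⟩ := Pool.Agent.N593.Karp.final ε hε
  exact ⟨N, fun n hn P hmono hiso h1 h0 s hs q hq => hN n hn P hiso hmono h1 h0 s hs q hq⟩

end Pool.Agent.Results.MP_257582_lc.ThreeEighths
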